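import Pool.Agent.H61.HB.Stmts4

set_option autoImplicit false

namespace HB

private lemma nrw_sq (N : ℕ) (i : Fin 4) : sq (car (N : ℤ) i) = (N : ℝ) ^ 2 := by
  fin_cases i <;> simp [sq, car, dir, sgn]

private lemma nrw_osc (ν : ℝ) (p : V) (N : ℤ) :
    osc ν p N = sh (car N 0) (pro ν p 0) + sh (car N 1) (pro ν p 1) + sh (car N 2) (pro ν p 2)
      + sh (car N 3) (pro ν p 3) := by
  funext j k
  simp [osc, Fin.sum_univ_four]

theorem nrw_thm (h1 : SHFStmt) (h2 : FSBStmt) (h3 : MMBStmt) : NRWStmt := by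
  intro ν M r p hM hr hp
  obtain ⟨-, -, -, hn0, -, hadd⟩ := h3
  obtain ⟨-, -, -, -, -, hpro, -⟩ := h2
  have hq : ∀ i : Fin 4, Fs M (pro ν p i) := hpro M ν p hM hp
  refine ⟨8 * (∑ i : Fin 4, nsq 0 (pro ν p i)) / (4 : ℝ) ^ (-r), ⌈2 * M⌉₊, ?_, ?_⟩
  · have : 0 ≤ ∑ i : Fin 4, nsq 0 (pro ν p i) := Finset.sum_nonneg fun i _ => hn0 _ _
    positivity
  · intro N hN hN1
    have hNr : 2 * M ≤ (N : ℝ) := Nat.ceil_le.1 hN
    have hNpos : (0 : ℝ) < N := by exact_mod_cast hN1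
    have key : ∀ i : Fin 4, Mem (-r) (sh (car (N : ℤ) i) (pro ν p i)) ∧
        nsq (-r) (sh (car (N : ℤ) i) (pro ν p i)) ≤ ((N : ℝ) ^ 2 / 4) ^ (-r) * nsq 0 (pro ν p i) :=
      fun i => h1 M N (-r) _ _ hM hNr hNpos (nrw_sq N i).ge (by linarith) (hq i)
    rw [nrw_osc]
    have a0 := key 0
    have a1 := key 1
    have a2 := key 2
    have a3 := key 3
    have b1 := hadd (-r) _ _ a0.1 a1.1
    have b2 := hadd (-r) _ _ b1.2.1 a2.1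
    have b3 := hadd (-r) _ _ b2.2.1 a3.1
    have e1 := b1.2.2.2
    have e2 := b2.2.2.2
    have e3 := b3.2.2.2
    have hx : ((N : ℝ) ^ 2 / 4) ^ (-r) = ((N : ℝ) ^ 2) ^ (-r) / (4 : ℝ) ^ (-r) :=
      Real.div_rpow (by positivity) (by norm_num) _
    rw [Fin.sum_univ_four]
    have hX : 0 ≤ ((N : ℝ) ^ 2 / 4) ^ (-r) := by positivity
    have n0 := hn0 0 (pro ν p 0)
    have n1 := hn0 0 (pro ν p 1)
    have n2 := hn0 0 (pro ν p 2)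
    have n3 := hn0 0 (pro ν p 3)
    have m2 := mul_nonneg hX n2
    have m3 := mul_nonneg hX n3
    have goal_eq : 8 * (nsq 0 (pro ν p 0) + nsq 0 (pro ν p 1) + nsq 0 (pro ν p 2) +
        nsq 0 (pro ν p 3)) / (4 : ℝ) ^ (-r) * ((N : ℝ) ^ 2) ^ (-r) =
        8 * (((N : ℝ) ^ 2 / 4) ^ (-r) * nsq 0 (pro ν p 0)) +
        8 * (((N : ℝ) ^ 2 / 4) ^ (-r) * nsq 0 (pro ν p 1)) +
        8 * (((N : ℝ) ^ 2 / 4) ^ (-r) * nsq 0 (pro ν p 2)) +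
        8 * (((N : ℝ) ^ 2 / 4) ^ (-r) * nsq 0 (pro ν p 3)) := by
      rw [hx]; ring
    rw [goal_eq]
    linarith [a0.2, a1.2, a2.2, a3.2]

end HB
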